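import Pool.Agent.Q85.VL.Defs
import Pool.Agent.Q151.CC.Double

/-! Project VL, job Wd (helper2): for an orientation `θ` of the vorticity the field `θ ω` is weakly free of divergence. -/

set_option autoImplicit false

open MeasureTheory Set Metric Filter Topology
open scoped ContDiff
open H459R3.NS Pool.Agent.W268.NS Pool.Agent.Q67.VD Pool.Agent.Q85.CC Pool.Agent.Q151.CC
open Pool.Agent.Q85.CL Pool.Agent.Q85.VL

namespace Pool.Agent.J4H2.VL

/-! ### the cut-off -/

lemma dst_zero_left {x : ℝ} (hx : x < 0) : deriv Real.smoothTransition x = 0 := by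
  have h : Real.smoothTransition =ᶠ[𝓝 x] fun _ => (0 : ℝ) := by
    filter_upwards [Iio_mem_nhds hx] with y hy
    exact Real.smoothTransition.zero_of_nonpos (le_of_lt hy)
  rw [h.deriv_eq]; simp

lemma dst_zero_right {x : ℝ} (hx : 1 < x) : deriv Real.smoothTransition x = 0 := by
  have h : Real.smoothTransition =ᶠ[𝓝 x] fun _ => (1 : ℝ) := by
    filter_upwards [Ioi_mem_nhds hx] with y hy
    exact Real.smoothTransition.one_of_one_le (le_of_lt hy)
  rw [h.deriv_eq]; simp

lemma st_smooth : ContDiff ℝ 1 Real.smoothTransition := Real.smoothTransition.contDiff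

lemma dst_cont : Continuous (deriv Real.smoothTransition) := st_smooth.continuous_deriv le_rfl

lemma dst_bound : ∃ C : ℝ, 0 ≤ C ∧ ∀ x, |deriv Real.smoothTransition x| ≤ C := by
  obtain ⟨C, hC⟩ := (isCompact_Icc (a := (0 : ℝ)) (b := 1)).exists_bound_of_continuousOn
    dst_cont.continuousOn
  refine ⟨|C|, abs_nonneg _, fun x => ?_⟩
  by_cases h0 : x < 0
  · rw [dst_zero_left h0, abs_zero]; exact abs_nonneg _
  by_cases h1 : 1 < x
  · rw [dst_zero_right h1, abs_zero]; exact abs_nonneg _
  push Not at h0 h1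
  exact (hC x ⟨h0, h1⟩).trans (le_abs_self C)

/-- the cut-off: `0` for `s ≤ δ`, `1` for `s ≥ 2 δ` -/
noncomputable def cu (δ s : ℝ) : ℝ := Real.smoothTransition (s / δ - 1)

/-- its derivative -/
noncomputable def cu' (δ s : ℝ) : ℝ := deriv Real.smoothTransition (s / δ - 1) / δ

lemma cu_deriv (δ s : ℝ) : HasDerivAt (cu δ) (cu' δ s) s := by
  have h1 : HasDerivAt (fun s : ℝ => s / δ - 1) (1 / δ) s := by
    simpa using ((hasDerivAt_id s).div_const δ).sub_const 1
  have h2 := (st_smooth.differentiable one_ne_zero (s / δ - 1)).hasDerivAt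
  refine (h2.comp s h1).congr_deriv ?_
  unfold cu'; ring

lemma cu'_cont (δ : ℝ) : Continuous (cu' δ) := by
  unfold cu'
  have := dst_cont
  fun_prop

lemma cu_smooth (δ : ℝ) : ContDiff ℝ 1 (cu δ) := contDiff_of_deriv (cu_deriv δ) (cu'_cont δ)

lemma cu_zero {δ s : ℝ} (hδ : 0 < δ) (hs : s ≤ δ) : cu δ s = 0 := by
  unfold cu
  apply Real.smoothTransition.zero_of_nonpos
  have : s / δ ≤ 1 := (div_le_one hδ).2 hs
  linarith

lemma cu_one {δ s : ℝ} (hδ : 0 < δ) (hs : 2 * δ ≤ s) : cu δ s = 1 := by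
  unfold cu
  apply Real.smoothTransition.one_of_one_le
  have : 2 ≤ s / δ := (le_div_iff₀ hδ).2 hs
  linarith

lemma cu'_zero {δ s : ℝ} (hδ : 0 < δ) (hs : 2 * δ < s) : cu' δ s = 0 := by
  unfold cu'
  have : 2 < s / δ := (lt_div_iff₀ hδ).2 hs
  rw [dst_zero_right (by linarith), zero_div]

lemma cu_abs (δ s : ℝ) : |cu δ s| ≤ 1 := by
  unfold cu
  rw [abs_of_nonneg (Real.smoothTransition.nonneg _)]
  exact Real.smoothTransition.le_one _

lemma cu'_bound {C : ℝ} (hC0 : 0 ≤ C) (hC : ∀ x, |deriv Real.smoothTransition x| ≤ C) {δ s : ℝ}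
    (hδ : 0 < δ) (hs : 0 ≤ s) : |cu' δ s| * s ≤ 2 * C := by
  by_cases h : 2 * δ < s
  · rw [cu'_zero hδ h, abs_zero, zero_mul]; positivity
  · push Not at h
    unfold cu'
    rw [abs_div, abs_of_pos hδ]
    calc |deriv Real.smoothTransition (s / δ - 1)| / δ * s ≤ C / δ * (2 * δ) := by
          gcongr
          exact hC _
      _ = 2 * C := by field_simp

/-! ### the field -/

variable {v : V → V} {θ : V → ℝ} {a : V} {R : ℝ}

/-- the length squared of the vorticity -/
noncomputable def qq (v : V → V) (y : V) : ℝ := vort v y ⬝ᵥ vort v y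

lemma qq_eq (v : V → V) (y : V) : qq v y = vort v y 0 * vort v y 0 + vort v y 1 * vort v y 1 +
    vort v y 2 * vort v y 2 := dot3 _ _

lemma qq_smooth (hv : SM v) : ContDiff ℝ 1 (qq v) := by
  have h := (vort_df hv).smooth
  have h1 : qq v = fun y => vort v y 0 * vort v y 0 + vort v y 1 * vort v y 1 +
    vort v y 2 * vort v y 2 := funext (qq_eq v)
  rw [h1]
  exact (((h 0).mul (h 0)).add ((h 1).mul (h 1))).add ((h 2).mul (h 2))

lemma qq_nonneg (v : V → V) (y : V) : 0 ≤ qq v y := dot_nn _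

lemma norm_sq_le_qq (v : V → V) (y : V) : ‖vort v y‖ ^ 2 ≤ qq v y := by
  have h := norm_le_len (vort v y)
  have h1 : √(vort v y ⬝ᵥ vort v y) ^ 2 = vort v y ⬝ᵥ vort v y := Real.sq_sqrt (dot_nn _)
  calc ‖vort v y‖ ^ 2 ≤ √(vort v y ⬝ᵥ vort v y) ^ 2 := by gcongr
    _ = _ := h1

lemma qq_zero {y : V} (h : qq v y = 0) : vort v y = 0 := by
  have := norm_sq_le_qq v y
  rw [h] at this
  have h1 : ‖vort v y‖ = 0 := by
    have := norm_nonneg (vort v y)
    nlinarith
  exact norm_eq_zero.1 h1

lemma vort_ne_of_qq {y : V} (h : 0 < qq v y) : vort v y ≠ 0 := by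
  intro hc
  unfold qq at h
  rw [hc] at h
  simp at h

/-- the bound of the derivative of `q` along the vorticity -/
noncomputable def Cq (v : V → V) (y : V) : ℝ :=
  2 * ∑ i, ‖fderiv ℝ (fun z => vort v z i) y‖

lemma Cq_cont (hv : SM v) : Continuous (Cq v) := by
  unfold Cq
  refine continuous_const.mul (continuous_finsetSum _ fun i _ => ?_)
  exact (((vort_df hv).smooth i).continuous_fderiv one_ne_zero).norm

lemma Cq_nonneg (v : V → V) (y : V) : 0 ≤ Cq v y := by unfold Cq; positivity

lemma qq_fderiv (hv : SM v) (y w : V) :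
    fderiv ℝ (qq v) y w = 2 * ∑ i, vort v y i * fderiv ℝ (fun z => vort v z i) y w := by
  have h := fun i => (((vort_df hv).smooth i).differentiable one_ne_zero y).hasFDerivAt
  have h1 : qq v = fun y => ∑ i, vort v y i * vort v y i := by
    funext y; rfl
  have h2 : HasFDerivAt (fun y => ∑ i, vort v y i * vort v y i) _ y :=
    HasFDerivAt.fun_sum fun i (_ : i ∈ Finset.univ) => (h i).fun_mul (h i)
  rw [h1, h2.fderiv]
  simp only [_root_.sum_apply, add_apply, smul_apply, smul_eq_mul, Finset.mul_sum]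
  refine Finset.sum_congr rfl fun i _ => ?_
  ring

lemma qq_fderiv_le (hv : SM v) (y : V) : |fderiv ℝ (qq v) y (vort v y)| ≤ Cq v y * qq v y := by
  rw [qq_fderiv hv, abs_mul, abs_two]
  unfold Cq
  rw [mul_assoc]
  refine mul_le_mul_of_nonneg_left ?_ (by norm_num)
  refine (Finset.abs_sum_le_sum_abs _ _).trans ?_
  rw [Finset.sum_mul]
  refine Finset.sum_le_sum fun i _ => ?_
  rw [abs_mul]
  have h1 : |vort v y i| ≤ ‖vort v y‖ := norm_le_pi_norm (vort v y) i
  have h2 : |fderiv ℝ (fun z => vort v z i) y (vort v y)| ≤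
      ‖fderiv ℝ (fun z => vort v z i) y‖ * ‖vort v y‖ := by
    rw [← Real.norm_eq_abs]; exact ContinuousLinearMap.le_opNorm _ _
  calc |vort v y i| * |fderiv ℝ (fun z => vort v z i) y (vort v y)|
      ≤ ‖vort v y‖ * (‖fderiv ℝ (fun z => vort v z i) y‖ * ‖vort v y‖) := by gcongr
    _ = ‖fderiv ℝ (fun z => vort v z i) y‖ * ‖vort v y‖ ^ 2 := by ring
    _ ≤ _ := by gcongr; exact norm_sq_le_qq v y

/-- the field on the cube is continuous -/
lemma tv_contOn (hv : SM v) (hθ : Orient θ a R (vort v)) :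
    ContinuousOn (fun y => θ y • vort v y) (closedBall a R) := by
  intro y hy
  have hwc := vort_cont hv
  by_cases h0 : vort v y = 0
  · rw [ContinuousWithinAt, h0, smul_zero, tendsto_zero_iff_norm_tendsto_zero]
    have h3 : Tendsto (fun z => ‖vort v z‖) (𝓝[closedBall a R] y) (𝓝 0) := by
      have := (hwc.norm.tendsto y).mono_left (nhdsWithin_le_nhds (s := closedBall a R))
      rwa [h0, norm_zero] at this
    refine squeeze_zero (fun z => norm_nonneg _) (fun z => ?_) h3
    rw [norm_smul, Real.norm_eq_abs]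
    rcases hθ.1 z with h | h <;> rw [h] <;> simp
  · have h1 : {z : V | vort v z ≠ 0} ∈ 𝓝 y := (hwc.continuousAt).eventually_ne h0
    have h2 := hθ.2 y ⟨by rwa [mem_closedBall, dist_eq_norm] at hy, h0⟩
    have h5 : ContinuousWithinAt θ (closedBall a R) y := by
      refine h2.mono_of_mem_nhdsWithin ?_
      rw [mem_nhdsWithin_iff_eventually]
      filter_upwards [h1] with z hz hzb
      exact ⟨by rwa [mem_closedBall, dist_eq_norm] at hzb, hz⟩
    exact h5.smul hwc.continuousWithinAt

/-- `θ` is locally constant where the vorticity is not zero -/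
lemma th_loc (hv : SM v) (hθ : Orient θ a R (vort v)) {y : V} (hy : y ∈ closedBall a R)
    (h0 : vort v y ≠ 0) : ∀ᶠ z in 𝓝 y, z ∈ closedBall a R → θ z = θ y := by
  have hwc := vort_cont hv
  have h1 : {z : V | vort v z ≠ 0} ∈ 𝓝 y := (hwc.continuousAt).eventually_ne h0
  have h2 := hθ.2 y ⟨by rwa [mem_closedBall, dist_eq_norm] at hy, h0⟩
  have h3 : ∀ᶠ z in 𝓝[{y | ‖y - a‖ ≤ R ∧ vort v y ≠ 0}] y, dist (θ z) (θ y) < 1 :=
    (Metric.tendsto_nhds.1 h2) 1 one_pos
  rw [eventually_nhdsWithin_iff] at h3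
  filter_upwards [h1, h3] with z hz h3z hzb
  have h4 := h3z ⟨by rwa [mem_closedBall, dist_eq_norm] at hzb, hz⟩
  rw [Real.dist_eq, abs_lt] at h4
  rcases hθ.1 z with h | h <;> rcases hθ.1 y with h' | h' <;> rw [h, h'] at h4 <;>
    first
    | (exfalso; linarith [h4.1, h4.2])
    | rw [h, h']

/-- the test function -/
noncomputable def Fd (v : V → V) (θ F : V → ℝ) (δ : ℝ) (y : V) : ℝ := θ y * (F y * cu δ (qq v y))

lemma Fd_loc (hv : SM v) (hθ : Orient θ a R (vort v)) {F : V → ℝ}
    (hts : tsupport F ⊆ closedBall a R) {δ : ℝ} (hδ : 0 < δ) (y : V) :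
    Fd v θ F δ =ᶠ[𝓝 y] fun z => θ y * (F z * cu δ (qq v z)) := by
  by_cases h1 : y ∈ tsupport F
  · by_cases h2 : qq v y < δ
    · have h3 : ∀ᶠ z in 𝓝 y, qq v z < δ :=
        ((qq_smooth hv).continuous.continuousAt).eventually_lt continuousAt_const h2
      filter_upwards [h3] with z hz
      unfold Fd
      rw [cu_zero hδ hz.le]
      simp
    · push Not at h2
      have h3 := th_loc hv hθ (hts h1) (vort_ne_of_qq (hδ.trans_le h2))
      filter_upwards [h3] with z hz
      unfold Fd
      by_cases hzb : z ∈ closedBall a R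
      · rw [hz hzb]
      · have h4 : F z = 0 := by
          by_contra hc
          exact hzb (hts (subset_tsupport F hc))
        rw [h4]; simp
  · have h3 : ∀ᶠ z in 𝓝 y, F z = 0 := by
      have := notMem_tsupport_iff_eventuallyEq.1 h1
      exact this
    filter_upwards [h3] with z hz
    unfold Fd
    rw [hz]; simp

lemma Fd_smooth (hv : SM v) (hθ : Orient θ a R (vort v)) {F : V → ℝ} (hF : ContDiff ℝ 1 F)
    (hts : tsupport F ⊆ closedBall a R) {δ : ℝ} (hδ : 0 < δ) : ContDiff ℝ 1 (Fd v θ F δ) := by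
  rw [contDiff_iff_contDiffAt]
  intro y
  have h1 : ContDiff ℝ 1 fun z => θ y * (F z * cu δ (qq v z)) :=
    contDiff_const.mul (hF.mul ((cu_smooth δ).comp (qq_smooth hv)))
  exact h1.contDiffAt.congr_of_eventuallyEq (Fd_loc hv hθ hts hδ y)

lemma Fd_fderiv (hv : SM v) (hθ : Orient θ a R (vort v)) {F : V → ℝ} (hF : ContDiff ℝ 1 F)
    (hts : tsupport F ⊆ closedBall a R) {δ : ℝ} (hδ : 0 < δ) (y w : V) :
    fderiv ℝ (Fd v θ F δ) y w = θ y * (F y * (cu' δ (qq v y) * fderiv ℝ (qq v) y w)) +
      cu δ (qq v y) * (θ y * fderiv ℝ F y w) := by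
  rw [(Fd_loc hv hθ hts hδ y).fderiv_eq]
  have a1 := (hF.differentiable one_ne_zero y).hasFDerivAt
  have a2 := ((qq_smooth hv).differentiable one_ne_zero y).hasFDerivAt
  have a3 : HasFDerivAt (fun y => cu δ (qq v y)) _ y := (cu_deriv δ (qq v y)).comp_hasFDerivAt y a2
  have a4 : HasFDerivAt (fun z => θ y * (F z * cu δ (qq v z))) _ y := (a1.fun_mul a3).const_mul (θ y)
  rw [a4.fderiv]
  simp only [add_apply, smul_apply, smul_eq_mul]
  ring

lemma Fd_tsupport {F : V → ℝ} (hts : tsupport F ⊆ closedBall a R) {δ : ℝ} :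
    tsupport (Fd v θ F δ) ⊆ closedBall a R := by
  refine (closure_mono ?_).trans hts
  intro y hy
  rw [Function.mem_support] at hy ⊢
  intro hc
  apply hy
  unfold Fd
  rw [hc]; simp

theorem wd : StmWd := by
  intro v θ a R hv hR hθ
  have hwc := vort_cont hv
  have hcO := tv_contOn hv hθ
  refine ⟨fun y => θ (clp a R y) • vort v (clp a R y),
    ⟨hcO.comp_continuous (clp_cont a R) (clp_mem hR.le a), ?_⟩, ?_⟩
  swap
  · intro y hy
    have hy' : y ∈ closedBall a R := by rwa [mem_closedBall, dist_eq_norm]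
    simp only [clp_eq hR.le hy']
  intro F hF hts
  have hms : MeasurableSet (closedBall a R) := isClosed_closedBall.measurableSet
  have hwd := (vort_df hv).wd R a
  have hq := qq_smooth hv
  obtain ⟨C, hC0, hC⟩ := dst_bound
  have cF : Continuous fun y => fderiv ℝ F y (vort v y) :=
    (hF.continuous_fderiv one_ne_zero).clm_apply hwc
  have cQ : Continuous fun y => fderiv ℝ (qq v) y (vort v y) :=
    (hq.continuous_fderiv one_ne_zero).clm_apply hwc
  -- the integrand of the limit
  have hlimI : ∫ y in closedBall a R, fderiv ℝ F y (θ (clp a R y) • vort v (clp a R y)) =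
      ∫ y in closedBall a R, θ y * fderiv ℝ F y (vort v y) := by
    refine setIntegral_congr_fun hms fun y hy => ?_
    simp only [clp_eq hR.le hy, map_smul, smul_eq_mul]
  rw [hlimI]
  have hI : ∀ n : ℕ, ∫ y in closedBall a R, fderiv ℝ (Fd v θ F (dl n)) y (vort v y) = 0 := by
    intro n
    exact hwd.div _ (Fd_smooth hv hθ hF hts (dl_pos n)) (Fd_tsupport hts)
  have hL : Tendsto (fun n => ∫ y in closedBall a R, fderiv ℝ (Fd v θ F (dl n)) y (vort v y)) atTop
      (𝓝 (∫ y in closedBall a R, θ y * fderiv ℝ F y (vort v y))) := by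
    refine tendsto_integral_of_dominated_convergence
      (fun y => |F y| * (2 * C * Cq v y) + |fderiv ℝ F y (vort v y)|) (fun n => ?_) ?_ (fun n => ?_) ?_
    · have h1 : Continuous fun y => fderiv ℝ (Fd v θ F (dl n)) y (vort v y) :=
        ((Fd_smooth hv hθ hF hts (dl_pos n)).continuous_fderiv one_ne_zero).clm_apply hwc
      exact h1.aestronglyMeasurable
    · exact int_cont ((hF.continuous.abs.mul (continuous_const.mul (Cq_cont hv))).add cF.abs) a R
    · refine Eventually.of_forall fun y => ?_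
      rw [Fd_fderiv hv hθ hF hts (dl_pos n), Real.norm_eq_abs]
      have hθ1 : |θ y| = 1 := by rcases hθ.1 y with h | h <;> rw [h] <;> simp
      refine (abs_add_le _ _).trans (add_le_add ?_ ?_)
      · rw [abs_mul, hθ1, one_mul, abs_mul]
        refine mul_le_mul_of_nonneg_left ?_ (abs_nonneg _)
        rw [abs_mul]
        have h1 := qq_fderiv_le hv y
        have h2 := cu'_bound hC0 hC (dl_pos n) (qq_nonneg v y)
        calc |cu' (dl n) (qq v y)| * |fderiv ℝ (qq v) y (vort v y)|
            ≤ |cu' (dl n) (qq v y)| * (Cq v y * qq v y) := by gcongr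
          _ = |cu' (dl n) (qq v y)| * qq v y * Cq v y := by ring
          _ ≤ 2 * C * Cq v y := by
              gcongr
              exact Cq_nonneg v y
      · rw [abs_mul, abs_mul, hθ1, one_mul]
        exact mul_le_of_le_one_left (abs_nonneg _) (cu_abs _ _)
    · refine Eventually.of_forall fun y => ?_
      by_cases h0 : qq v y = 0
      · have h1 := qq_zero h0
        have h2 : ∀ n, fderiv ℝ (Fd v θ F (dl n)) y (vort v y) = 0 := by
          intro n; rw [h1, map_zero]
        simp only [h1, map_zero, mul_zero]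
        exact tendsto_const_nhds
      · have hpos : 0 < qq v y := lt_of_le_of_ne (qq_nonneg v y) (Ne.symm h0)
        have h1 : ∀ᶠ n in atTop, 2 * dl n < qq v y := by
          have h2 : Tendsto (fun n => 2 * dl n) atTop (𝓝 (2 * 0)) := dl_lim.const_mul 2
          rw [mul_zero] at h2
          exact h2.eventually (gt_mem_nhds hpos)
        refine tendsto_const_nhds.congr' ?_
        filter_upwards [h1] with n hn
        rw [Fd_fderiv hv hθ hF hts (dl_pos n), cu'_zero (dl_pos n) hn, cu_one (dl_pos n) hn.le]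
        ring
  simp_rw [hI] at hL
  exact (tendsto_nhds_unique hL tendsto_const_nhds)

end Pool.Agent.J4H2.VL
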